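import Pool.Agent.H73.GWT.Stmts

/-! Row RU1 of board gwt (MP_213ba5_lc, TreePatterns): one step of the union bound. -/

set_option autoImplicit false

open Classical

namespace GWT

namespace RU1Aux

variable {S : Type*} [Fintype S]

theorem wsum_list {α : Type*} (n : ℕ) (l : List α) (F : α → List S → ℝ) :
    GWP.wsum n (fun w => (l.map (fun a => F a w)).sum) = (l.map (fun a => GWP.wsum n (F a))).sum := by
  induction l with
  | nil =>
    simp only [List.map_nil, List.sum_nil]
    rw [GWP.wsum_const, zero_mul]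
  | cons a l ih =>
    simp only [List.map_cons, List.sum_cons]
    rw [GWP.wsum_add, ih]

theorem list_sum_le {α : Type*} (l : List α) (f g : α → ℝ) (h : ∀ a ∈ l, f a ≤ g a) :
    (l.map f).sum ≤ (l.map g).sum :=
  List.sum_le_sum h

theorem geo (n : ℕ) : ∑ r ∈ Finset.range n, (1 / 2 : ℝ) ^ r * (1 + ((r : ℝ) + 2) / 4) =
    7 / 2 - (1 / 2 : ℝ) ^ n * (((n : ℝ) + 7) / 2) := by
  induction n with
  | zero => norm_num
  | succ n ih =>
    rw [Finset.sum_range_succ, ih]
    push_cast
    ring

end RU1Aux

open RU1Aux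

theorem RU1 (S : Type*) [Fintype S] : RU1Stmt S := by
  intro sh cmp L R hsh hcmp σ cl hσ
  set q : ℝ := (Fintype.card S : ℝ) with hq
  have hq0 : 0 ≤ q ^ L := by positivity
  set A : ℝ := (16 : ℝ) ^ R with hA
  have hA1 : 1 ≤ A := one_le_pow₀ (by norm_num)
  have hA0 : 0 < A := by positivity
  have hAp : A * ((1 / 16) ^ R / 4 : ℝ) = 1 / 4 := by
    rw [hA, mul_div_assoc', ← mul_pow]; norm_num
  -- the number of claims
  have hclm : ∀ r : ℕ, GWP.wsum L (fun b : List S => if clm sh cmp b σ r = true then (1 : ℝ) else 0) ≤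
      ((r : ℝ) + 2) * ((1 / 16) ^ R / 4 * q ^ L) := by
    intro r
    have h1 : ∀ b : List S, b.length = L → (if clm sh cmp b σ r = true then (1 : ℝ) else 0) ≤
        (if sh b = true then (1 : ℝ) else 0) +
          ((σ.take (r + 1)).map (fun c => if cmp c b = true then (1 : ℝ) else 0)).sum := by
      intro b _
      have hnn : ∀ l : List (List S),
          0 ≤ (l.map (fun c => if cmp c b = true then (1 : ℝ) else 0)).sum := by
        intro l
        apply List.sum_nonneg
        intro x hx
        rw [List.mem_map] at hx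
        obtain ⟨c, _, rfl⟩ := hx
        split_ifs <;> norm_num
      by_cases hs : sh b = true
      · have h2 := hnn (σ.take (r + 1))
        rw [if_pos hs]
        split_ifs <;> linarith
      · rw [if_neg hs, zero_add]
        by_cases hc : clm sh cmp b σ r = true
        · rw [if_pos hc]
          rw [clm, Bool.or_eq_true, List.any_eq_true] at hc
          rcases hc with hc | ⟨c, hc, hcb⟩
          · exact absurd hc hs
          · obtain ⟨l₁, l₂, hl⟩ := List.append_of_mem hc
            rw [hl, List.map_append, List.map_cons, List.sum_append, List.sum_cons, if_pos hcb]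
            have := hnn l₁
            have := hnn l₂
            linarith
        · rw [if_neg hc]
          exact hnn _
    refine (GWP.wsum_le L _ _ h1).trans ?_
    rw [GWP.wsum_add, wsum_list]
    have h3 : ((σ.take (r + 1)).map (fun c => GWP.wsum L
        (fun b : List S => if cmp c b = true then (1 : ℝ) else 0))).sum ≤
        ((σ.take (r + 1)).map (fun _ => (1 / 16) ^ R / 4 * q ^ L)).sum :=
      list_sum_le _ _ _ (fun c hc => hcmp c (hσ c (List.mem_of_mem_take hc)))
    have h4 : ((σ.take (r + 1)).map (fun _ => (1 / 16) ^ R / 4 * q ^ L)).sum ≤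
        ((r : ℝ) + 1) * ((1 / 16) ^ R / 4 * q ^ L) := by
      rw [List.map_const', List.sum_replicate, nsmul_eq_mul]
      apply mul_le_mul_of_nonneg_right _ (by positivity)
      have : (σ.take (r + 1)).length ≤ r + 1 := by
        rw [List.length_take]; exact min_le_left _ _
      exact_mod_cast this
    have h5 := hsh
    nlinarith
  -- the sum over r
  have hval : ∀ b : List S, ((stp sh cmp b (σ, cl)).map (fun cfg =>
      (2 : ℝ) ^ cfg.1.length * A ^ cfg.2)).sum =
      ((List.range (σ.length + 1)).map (fun r => (2 : ℝ) ^ (σ.length - r + 1) *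
        A ^ (cl + if clm sh cmp b σ r then 1 else 0))).sum := by
    intro b
    rw [stp, List.map_map]
    congr 1
    apply List.map_congr_left
    intro r _
    simp only [Function.comp, List.length_cons, List.length_drop]
  rw [GWP.wsum_congr L _ _ (fun b _ => hval b), wsum_list]
  have hterm : ∀ r ∈ List.range (σ.length + 1), GWP.wsum L (fun b : List S =>
      (2 : ℝ) ^ (σ.length - r + 1) * A ^ (cl + if clm sh cmp b σ r then 1 else 0)) ≤
      (2 : ℝ) ^ (σ.length + 1) * A ^ cl * q ^ L * ((1 / 2 : ℝ) ^ r * (1 + ((r : ℝ) + 2) / 4)) := by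
    intro r hr
    rw [List.mem_range] at hr
    have h1 : GWP.wsum L (fun b : List S =>
        (2 : ℝ) ^ (σ.length - r + 1) * A ^ (cl + if clm sh cmp b σ r then 1 else 0)) ≤
        GWP.wsum L (fun b : List S => (2 : ℝ) ^ (σ.length - r + 1) * A ^ cl *
          (1 + A * (if clm sh cmp b σ r = true then (1 : ℝ) else 0))) := by
      apply GWP.wsum_le
      intro b _
      rw [pow_add A cl, mul_assoc ((2 : ℝ) ^ (σ.length - r + 1)) (A ^ cl)]
      apply mul_le_mul_of_nonneg_left _ (by positivity)
      apply mul_le_mul_of_nonneg_left _ (by positivity)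
      by_cases hc : clm sh cmp b σ r = true
      · rw [if_pos hc, if_pos hc]; linarith
      · rw [if_neg hc, if_neg hc]; simp
    refine h1.trans ?_
    rw [GWP.wsum_mul, GWP.wsum_add, GWP.wsum_const, GWP.wsum_mul]
    have h2 : (2 : ℝ) ^ (σ.length + 1) * (1 / 2 : ℝ) ^ r = (2 : ℝ) ^ (σ.length - r + 1) := by
      have : σ.length + 1 = (σ.length - r + 1) + r := by omega
      rw [this, pow_add, mul_assoc, ← mul_pow]
      norm_num
    have h3 : A * GWP.wsum L (fun b : List S => if clm sh cmp b σ r = true then (1 : ℝ) else 0) ≤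
        ((r : ℝ) + 2) / 4 * q ^ L := by
      calc A * GWP.wsum L (fun b : List S => if clm sh cmp b σ r = true then (1 : ℝ) else 0)
          ≤ A * (((r : ℝ) + 2) * ((1 / 16) ^ R / 4 * q ^ L)) :=
            mul_le_mul_of_nonneg_left (hclm r) hA0.le
        _ = (A * ((1 / 16) ^ R / 4 : ℝ)) * ((r : ℝ) + 2) * q ^ L := by ring
        _ = ((r : ℝ) + 2) / 4 * q ^ L := by rw [hAp]; ring
    calc (2 : ℝ) ^ (σ.length - r + 1) * A ^ cl * (1 * (Fintype.card S : ℝ) ^ L +
          A * GWP.wsum L (fun b : List S => if clm sh cmp b σ r = true then (1 : ℝ) else 0))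
        ≤ (2 : ℝ) ^ (σ.length - r + 1) * A ^ cl * (1 * q ^ L + ((r : ℝ) + 2) / 4 * q ^ L) := by
          apply mul_le_mul_of_nonneg_left _ (by positivity)
          linarith
      _ = (2 : ℝ) ^ (σ.length + 1) * A ^ cl * q ^ L * ((1 / 2 : ℝ) ^ r * (1 + ((r : ℝ) + 2) / 4)) := by
          rw [← h2]; ring
  refine (list_sum_le _ _ _ hterm).trans ?_
  rw [List.sum_map_mul_left]
  have hsum : ((List.range (σ.length + 1)).map
      (fun r : ℕ => (1 / 2 : ℝ) ^ r * (1 + ((r : ℝ) + 2) / 4))).sum ≤ 7 / 2 := by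
    have h1 : ((List.range (σ.length + 1)).map
      (fun r : ℕ => (1 / 2 : ℝ) ^ r * (1 + ((r : ℝ) + 2) / 4))).sum =
      ∑ r ∈ Finset.range (σ.length + 1), (1 / 2 : ℝ) ^ r * (1 + ((r : ℝ) + 2) / 4) := by
      rw [← List.sum_toFinset _ List.nodup_range, List.toFinset_range]
    rw [h1, geo]
    have : 0 ≤ (1 / 2 : ℝ) ^ (σ.length + 1) * ((((σ.length + 1 : ℕ) : ℝ) + 7) / 2) := by positivity
    linarith
  calc (2 : ℝ) ^ (σ.length + 1) * A ^ cl * q ^ L * _
      ≤ (2 : ℝ) ^ (σ.length + 1) * A ^ cl * q ^ L * (7 / 2) :=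
        mul_le_mul_of_nonneg_left hsum (by positivity)
    _ ≤ 8 * q ^ L * ((2 : ℝ) ^ σ.length * A ^ cl) := by
        rw [pow_succ]
        have : 0 ≤ (2 : ℝ) ^ σ.length * A ^ cl * q ^ L := by positivity
        nlinarith

end GWT
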