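import Pool.Agent.H73.GWT.Stmts

/-! Row RUN of board gwt (MP_213ba5_lc, TreePatterns): union bound over the runs. -/

set_option autoImplicit false

open Classical

namespace GWT

namespace RUNAux

variable {S : Type*} [Fintype S]

theorem wsum_list {α : Type*} (n : ℕ) (l : List α) (F : α → List S → ℝ) :
    GWP.wsum n (fun w => (l.map (fun a => F a w)).sum) = (l.map (fun a => GWP.wsum n (F a))).sum := by
  induction l with
  | nil =>
    simp only [List.map_nil, List.sum_nil]
    rw [GWP.wsum_const, zero_mul]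
  | cons a l ih =>
    simp only [List.map_cons, List.sum_cons]
    rw [GWP.wsum_add, ih]

/-- potential -/
noncomputable def pot (R : ℕ) (cfg : List (List S) × ℕ) : ℝ :=
  (2 : ℝ) ^ cfg.1.length * (16 ^ R) ^ cfg.2

omit [Fintype S] in
theorem pot_nonneg (R : ℕ) (cfg : List (List S) × ℕ) : 0 ≤ pot R cfg := by
  unfold pot; positivity

/-- all configurations after reading `bs`, starting from the list `Cs` -/
def runsF (sh : List S → Bool) (cmp : List S → List S → Bool) (Cs : List (List (List S) × ℕ))
    (bs : List (List S)) : List (List (List S) × ℕ) :=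
  bs.foldl (fun Cs b => Cs.flatMap (stp sh cmp b)) Cs

theorem sum_flatMap {α β : Type*} (l : List α) (f : α → List β) (g : β → ℝ) :
    ((l.flatMap f).map g).sum = (l.map (fun a => ((f a).map g).sum)).sum := by
  induction l with
  | nil => rfl
  | cons a l ih =>
    rw [List.flatMap_cons, List.map_append, List.sum_append, ih, List.map_cons, List.sum_cons]

theorem main (h1 : RU1Stmt S) (h2 : BLOStmt S) (sh : List S → Bool)
    (cmp : List S → List S → Bool) (L R : ℕ) (hL : 1 ≤ L)
    (hsh : GWP.wsum L (fun b : List S => if sh b = true then (1 : ℝ) else 0) ≤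
      (1 / 16) ^ R / 4 * (Fintype.card S : ℝ) ^ L)
    (hcmp : ∀ c : List S, c.length = L →
      GWP.wsum L (fun b : List S => if cmp c b = true then (1 : ℝ) else 0) ≤
        (1 / 16) ^ R / 4 * (Fintype.card S : ℝ) ^ L) (k : ℕ) (hk : k < L) (m : ℕ) :
    ∀ Cs : List (List (List S) × ℕ), (∀ cfg ∈ Cs, ∀ c ∈ cfg.1, c.length = L) →
      GWP.wsum (L * m + k) (fun w : List S =>
        ((runsF sh cmp Cs (blocks L w)).map (pot R)).sum) ≤
      8 ^ m * (Fintype.card S : ℝ) ^ (L * m + k) * (Cs.map (pot R)).sum := by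
  induction m with
  | zero =>
    intro Cs _
    rw [mul_zero, zero_add, pow_zero, one_mul]
    have : ∀ w : List S, w.length = k → ((runsF sh cmp Cs (blocks L w)).map (pot R)).sum =
        (Cs.map (pot R)).sum := by
      intro w hw
      have hb : blocks L w = [] := by
        rw [← List.length_eq_zero_iff, ((h2 L hL).1 w).2.2.2, hw]
        exact Nat.div_eq_of_lt hk
      rw [hb]; rfl
    rw [GWP.wsum_congr k _ _ this, GWP.wsum_const, mul_comm]
  | succ m ih =>
    intro Cs hCs
    have hlen : L * (m + 1) + k = L + (L * m + k) := by ring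
    rw [hlen, GWP.wsum_append]
    have hstep : ∀ u : List S, u.length = L → GWP.wsum (L * m + k) (fun v : List S =>
        ((runsF sh cmp Cs (blocks L (u ++ v))).map (pot R)).sum) ≤
        8 ^ m * (Fintype.card S : ℝ) ^ (L * m + k) *
          (Cs.map (fun cfg => ((stp sh cmp u cfg).map (pot R)).sum)).sum := by
      intro u hu
      have h3 : (fun v : List S => ((runsF sh cmp Cs (blocks L (u ++ v))).map (pot R)).sum) =
          fun v => ((runsF sh cmp (Cs.flatMap (stp sh cmp u)) (blocks L v)).map (pot R)).sum := by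
        funext v
        rw [(h2 L hL).2 u v hu]
        rfl
      rw [h3, ← sum_flatMap]
      apply ih
      intro cfg hcfg c hc
      rw [List.mem_flatMap] at hcfg
      obtain ⟨cfg₀, hcfg₀, hcfg⟩ := hcfg
      rw [stp, List.mem_map] at hcfg
      obtain ⟨r, _, rfl⟩ := hcfg
      rcases List.mem_cons.1 hc with rfl | hc
      · exact hu
      · exact hCs cfg₀ hcfg₀ c (List.mem_of_mem_drop hc)
    refine (GWP.wsum_le L _ _ hstep).trans ?_
    rw [GWP.wsum_mul, wsum_list]
    have h4 : (Cs.map (fun cfg => GWP.wsum L (fun u => ((stp sh cmp u cfg).map (pot R)).sum))).sum ≤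
        (Cs.map (fun cfg => 8 * (Fintype.card S : ℝ) ^ L * pot R cfg)).sum := by
      apply List.sum_le_sum
      intro cfg hcfg
      exact h1 sh cmp L R hsh hcmp cfg.1 cfg.2 (hCs cfg hcfg)
    rw [List.sum_map_mul_left] at h4
    have h5 : (0 : ℝ) ≤ 8 ^ m * (Fintype.card S : ℝ) ^ (L * m + k) := by positivity
    calc 8 ^ m * (Fintype.card S : ℝ) ^ (L * m + k) * _
        ≤ 8 ^ m * (Fintype.card S : ℝ) ^ (L * m + k) *
          (8 * (Fintype.card S : ℝ) ^ L * (Cs.map (pot R)).sum) :=
          mul_le_mul_of_nonneg_left h4 h5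
      _ = 8 ^ (m + 1) * (Fintype.card S : ℝ) ^ (L + (L * m + k)) * (Cs.map (pot R)).sum := by
          rw [pow_add (Fintype.card S : ℝ) L]; ring

end RUNAux

open RUNAux

theorem RUN (S : Type*) [Fintype S] (h1 : RU1Stmt S) (h2 : BLOStmt S) : RUNStmt S := by
  intro sh cmp L R hL hsh hcmp n
  have hdm : L * (n / L) + n % L = n := Nat.div_add_mod n L
  have hk : n % L < L := Nat.mod_lt _ hL
  have hm := main h1 h2 sh cmp L R hL hsh hcmp (n % L) hk (n / L) [([], 0)] (by
    intro cfg hcfg c hc
    rw [List.mem_singleton] at hcfg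
    subst hcfg
    simp at hc)
  rw [hdm] at hm
  have hpot0 : (List.map (pot R) [(([] : List (List S)), 0)]).sum = 1 := by
    simp [pot]
  rw [hpot0, mul_one] at hm
  have hA1 : (1 : ℝ) ≤ 16 ^ R := one_le_pow₀ (by norm_num)
  have hpt : ∀ w : List S, w.length = n →
      (if ∃ cfg ∈ runs sh cmp (blocks L w), (blocks L w).length ≤ R * (cfg.2 + 1)
        then (1 : ℝ) else 0) ≤
      (16 ^ R * (1 / 16 : ℝ) ^ (n / L)) *
        ((runsF sh cmp [([], 0)] (blocks L w)).map (pot R)).sum := by
    intro w hw
    have hnn : ∀ l : List (List (List S) × ℕ), 0 ≤ (l.map (pot R)).sum := by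
      intro l
      apply List.sum_nonneg
      intro x hx
      rw [List.mem_map] at hx
      obtain ⟨c, _, rfl⟩ := hx
      exact pot_nonneg R c
    by_cases hex : ∃ cfg ∈ runs sh cmp (blocks L w), (blocks L w).length ≤ R * (cfg.2 + 1)
    · rw [if_pos hex]
      obtain ⟨cfg, hcfg, hle⟩ := hex
      have hlen : (blocks L w).length = n / L := by rw [((h2 L hL).1 w).2.2.2, hw]
      rw [hlen] at hle
      have h3 : pot R cfg ≤ ((runsF sh cmp [([], 0)] (blocks L w)).map (pot R)).sum := by
        have hcfg' : cfg ∈ runsF sh cmp [([], 0)] (blocks L w) := hcfg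
        obtain ⟨l₁, l₂, hl⟩ := List.append_of_mem hcfg'
        rw [hl, List.map_append, List.map_cons, List.sum_append, List.sum_cons]
        have := hnn l₁
        have := hnn l₂
        linarith
      have h4 : (16 : ℝ) ^ (n / L) ≤ 16 ^ R * pot R cfg := by
        calc (16 : ℝ) ^ (n / L) ≤ 16 ^ (R * (cfg.2 + 1)) := pow_le_pow_right₀ (by norm_num) hle
          _ = 16 ^ R * (1 * (16 ^ R) ^ cfg.2) := by
            rw [mul_add, mul_one, pow_add, pow_mul]; ring
          _ ≤ 16 ^ R * pot R cfg := by
            apply mul_le_mul_of_nonneg_left _ (by positivity)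
            unfold pot
            apply mul_le_mul_of_nonneg_right _ (by positivity)
            exact one_le_pow₀ (by norm_num)
      have h5 : (1 : ℝ) = (1 / 16 : ℝ) ^ (n / L) * 16 ^ (n / L) := by
        rw [← mul_pow]; norm_num
      calc (1 : ℝ) = (1 / 16 : ℝ) ^ (n / L) * 16 ^ (n / L) := h5
        _ ≤ (1 / 16 : ℝ) ^ (n / L) * (16 ^ R * ((runsF sh cmp [([], 0)] (blocks L w)).map
              (pot R)).sum) := by
            apply mul_le_mul_of_nonneg_left _ (by positivity)
            exact h4.trans (mul_le_mul_of_nonneg_left h3 (by positivity))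
        _ = _ := by ring
    · rw [if_neg hex]
      have := hnn (runsF sh cmp [([], 0)] (blocks L w))
      positivity
  refine (GWP.wsum_le n _ _ hpt).trans ?_
  rw [GWP.wsum_mul]
  calc (16 ^ R * (1 / 16 : ℝ) ^ (n / L)) * _
      ≤ (16 ^ R * (1 / 16 : ℝ) ^ (n / L)) * (8 ^ (n / L) * (Fintype.card S : ℝ) ^ n) :=
        mul_le_mul_of_nonneg_left hm (by positivity)
    _ = 16 ^ R * (1 / 2 : ℝ) ^ (n / L) * (Fintype.card S : ℝ) ^ n := by
        have : (1 / 16 : ℝ) ^ (n / L) * 8 ^ (n / L) = (1 / 2) ^ (n / L) := by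
          rw [← mul_pow]; norm_num
        rw [← this]; ring

end GWT
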